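import Mathlib
import Pool.Agent.Lib_helper47.G3.ThreeSq

/-!
# Four squares in `ℚ(√D)`: the rational core

For a positive integer `D` not divisible by 4 and rational `a > 0`, `b` with `a ^ 2 - D b ^ 2 > 0`
there are `X, Y ∈ ℚ⁴` with `X·X + D Y·Y = a`, `2 X·Y = b`, i.e. `a + b √D` is the sum of the squares
of the `X_i + Y_i √D`.
-/

set_option autoImplicit false

namespace Pool.Agent.Lib_helper41.UL

/-- a positive rational number is the sum of four squares -/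
theorem rat_four (p : ℚ) (hp : 0 < p) : ∃ x y z t : ℚ, x ^ 2 + y ^ 2 + z ^ 2 + t ^ 2 = p := by
  obtain ⟨x, y, z, t, h⟩ := Nat.sum_four_squares (p.num.toNat * p.den)
  have hd : (p.den : ℚ) ≠ 0 := by exact_mod_cast p.den_ne_zero
  have hnum : ((p.num.toNat : ℕ) : ℚ) = p.num := by
    have h1 : 0 ≤ p.num := (Rat.num_pos.2 hp).le
    have h2 : ((p.num.toNat : ℕ) : ℤ) = p.num := Int.toNat_of_nonneg h1
    exact_mod_cast h2
  have hpe : (p.num : ℚ) = p * p.den := by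
    rw [Rat.mul_den_eq_num]
  have h' : (x : ℚ) ^ 2 + y ^ 2 + z ^ 2 + t ^ 2 = p * p.den * p.den := by
    rw [← hpe, ← hnum]
    exact_mod_cast h
  refine ⟨x / p.den, y / p.den, z / p.den, t / p.den, ?_⟩
  field_simp
  linarith

/-- the choice of `w` -/
theorem exists_w (D : ℕ) (hD : D % 4 ≠ 0) (n : ℚ) (hn : 0 < n) :
    ∃ w x y z : ℚ, w ^ 2 < n ∧ D * (n - w ^ 2) = x ^ 2 + y ^ 2 + z ^ 2 := by
  have hd : (n.den : ℚ) ≠ 0 := by exact_mod_cast n.den_ne_zero
  have hd0 : (0 : ℚ) < n.den := by exact_mod_cast n.den_pos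
  have hnum : ((n.num.toNat : ℕ) : ℚ) = n.num := by
    have h1 : 0 ≤ n.num := (Rat.num_pos.2 hn).le
    have h2 : ((n.num.toNat : ℕ) : ℤ) = n.num := Int.toNat_of_nonneg h1
    exact_mod_cast h2
  have hpe : (n.num : ℚ) = n * n.den := by
    rw [Rat.mul_den_eq_num]
  have hN0 : n.num.toNat * n.den ≠ 0 := by
    have h1 : 0 < n.num := Rat.num_pos.2 hn
    have h2 : 0 < n.num.toNat := by omega
    exact (Nat.mul_pos h2 n.den_pos).ne'
  obtain ⟨k, N, h4, hN⟩ := Nat.exists_eq_pow_mul_and_not_dvd hN0 4 (by norm_num)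
  have h4' : N % 4 ≠ 0 := fun h => h4 (Nat.dvd_of_mod_eq_zero h)
  have key : n = ((2 : ℚ) ^ k / n.den) ^ 2 * N := by
    have h1 : ((n.num.toNat * n.den : ℕ) : ℚ) = ((4 ^ k * N : ℕ) : ℚ) := by rw [hN]
    push_cast at h1
    rw [hnum, hpe] at h1
    have h2 : ((2 : ℚ) ^ k) ^ 2 = 4 ^ k := by
      rw [← pow_mul, mul_comm, pow_mul]; norm_num
    rw [div_pow, h2]
    field_simp
    linarith
  set c : ℚ := (2 : ℚ) ^ k / n.den with hc
  have hc0 : 0 < c := by positivity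
  have hN1 : 0 < N := Nat.pos_of_ne_zero (by rintro rfl; simp at h4')
  have hmod : (D * N) % 8 = ((D % 8) * (N % 8)) % 8 := Nat.mul_mod D N 8
  have hcases : (D * N % 8 = 1 ∨ D * N % 8 = 2 ∨ D * N % 8 = 3 ∨ D * N % 8 = 5 ∨ D * N % 8 = 6) ∨
      (D * N % 8 = 7 ∧ D % 2 = 1) ∨ (D % 4 = 2 ∧ N % 4 = 2) := by
    have h1 : D % 8 < 8 := Nat.mod_lt _ (by norm_num)
    have h2 : N % 8 < 8 := Nat.mod_lt _ (by norm_num)
    have h3 : D % 4 = (D % 8) % 4 := by omega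
    have h5 : N % 4 = (N % 8) % 4 := by omega
    have h6 : D % 2 = (D % 8) % 2 := by omega
    rw [hmod, h3, h5, h6]
    rw [h3] at hD
    rw [h5] at h4'
    generalize D % 8 = u at *
    generalize N % 8 = v at *
    clear hmod h3 h5 h6
    interval_cases u <;> interval_cases v <;> omega
  rcases hcases with h | ⟨h, hDo⟩ | ⟨hD2, hN2⟩
  · obtain ⟨x, y, z, hxyz⟩ := Pool.Agent.Lib_helper47.G3.three_squares h
    have h' : (x : ℚ) ^ 2 + y ^ 2 + z ^ 2 = D * N := by exact_mod_cast hxyz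
    refine ⟨0, c * x, c * y, c * z, by simpa using hn, ?_⟩
    rw [key]
    linear_combination (-c ^ 2) * h'
  · have h9 : 4 < 9 * N := by omega
    have hM : (D * (9 * N - 4)) % 8 = 3 := by
      obtain ⟨m, hm⟩ : ∃ m, 9 * N = m + 4 := ⟨9 * N - 4, by omega⟩
      have e1 : 9 * N - 4 = m := by omega
      rw [e1]
      have h1 : (D * (9 * N)) % 8 = 7 := by
        have : D * (9 * N) = 9 * (D * N) := by ring
        rw [this]; omega
      rw [hm] at h1
      have h2 : D * (m + 4) = D * m + 4 * D := by ring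
      rw [h2] at h1
      omega
    obtain ⟨x, y, z, hxyz⟩ := Pool.Agent.Lib_helper47.G3.three_squares
      (n := D * (9 * N - 4)) (by omega)
    have h' : (x : ℚ) ^ 2 + y ^ 2 + z ^ 2 = D * (9 * N - 4) := by
      have h1 : ((x ^ 2 + y ^ 2 + z ^ 2 : ℤ) : ℚ) = ((D * (9 * N - 4) : ℕ) : ℚ) := by
        exact_mod_cast hxyz
      rw [Nat.cast_mul, Nat.cast_sub h9.le] at h1
      push_cast at h1
      exact h1
    refine ⟨c * 2 / 3, c / 3 * x, c / 3 * y, c / 3 * z, ?_, ?_⟩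
    · have h1 : (4 : ℚ) < 9 * N := by exact_mod_cast h9
      rw [key]
      have h2 : 0 < c ^ 2 := by positivity
      nlinarith
    · rw [key]
      linear_combination (-c ^ 2 / 9) * h'
  · have h9 : 1 < N := by omega
    have hM : (D * (N - 1)) % 4 = 2 := by
      have h1 : (D * (N - 1)) % 4 = ((D % 4) * ((N - 1) % 4)) % 4 := Nat.mul_mod _ _ _
      have h2 : (N - 1) % 4 = 1 := by omega
      rw [h1, hD2, h2]
    obtain ⟨x, y, z, hxyz⟩ := Pool.Agent.Lib_helper47.G3.three_squares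
      (n := D * (N - 1)) (by omega)
    have h' : (x : ℚ) ^ 2 + y ^ 2 + z ^ 2 = D * (N - 1) := by
      have h1 : ((x ^ 2 + y ^ 2 + z ^ 2 : ℤ) : ℚ) = ((D * (N - 1) : ℕ) : ℚ) := by
        exact_mod_cast hxyz
      rw [Nat.cast_mul, Nat.cast_sub h9.le] at h1
      push_cast at h1
      exact h1
    refine ⟨c, c * x, c * y, c * z, ?_, ?_⟩
    · have h1 : (1 : ℚ) < N := by exact_mod_cast h9
      rw [key]
      have h2 : 0 < c ^ 2 := by positivity
      nlinarith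
    · rw [key]
      linear_combination (-c ^ 2) * h'

/-- the rational core: `a + b √D` is a sum of four squares in `ℚ(√D)` -/
theorem four_rational (D : ℕ) (hD : D % 4 ≠ 0) (a b : ℚ) (ha : 0 < a)
    (hn : 0 < a ^ 2 - D * b ^ 2) :
    ∃ X Y : Fin 4 → ℚ, (∑ i, X i ^ 2) + D * (∑ i, Y i ^ 2) = a ∧ 2 * (∑ i, X i * Y i) = b := by
  have hD0 : (0 : ℚ) < D := by
    have : 0 < D := Nat.pos_of_ne_zero (by rintro rfl; simp at hD)
    exact_mod_cast this
  obtain ⟨w, x, y, z, hw, hxyz⟩ := exists_w D hD _ hn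
  have hwa : w ^ 2 < a ^ 2 := by nlinarith [sq_nonneg b]
  have hp : 0 < (a + w) / 2 := by
    have h1 : |w| < a := abs_lt_of_sq_lt_sq hwa ha.le
    linarith [(abs_lt.1 h1).1]
  obtain ⟨x0, x1, x2, x3, hX⟩ := rat_four _ hp
  set p : ℚ := (a + w) / 2 with hpdef
  have hp' : p ≠ 0 := hp.ne'
  have hw' : w = 2 * p - a := by rw [hpdef]; ring
  have hDne : (D : ℚ) ≠ 0 := hD0.ne'
  set s : ℚ := x / (2 * D * p) with hs
  set t : ℚ := y / (2 * D * p) with ht
  set u : ℚ := z / (2 * D * p) with hu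
  have hstu : s ^ 2 + t ^ 2 + u ^ 2 = (a ^ 2 - D * b ^ 2 - w ^ 2) / (4 * D * p ^ 2) := by
    have h1 : s ^ 2 + t ^ 2 + u ^ 2 = (x ^ 2 + y ^ 2 + z ^ 2) / (4 * D ^ 2 * p ^ 2) := by
      rw [hs, ht, hu]; field_simp; ring
    rw [h1, ← hxyz]
    field_simp
  refine ⟨![x0, x1, x2, x3], ![b / (2 * p) * x0 + (s * (-x1) + t * (-x2) + u * (-x3)),
    b / (2 * p) * x1 + (s * x0 + t * (-x3) + u * x2),
    b / (2 * p) * x2 + (s * x3 + t * x0 + u * (-x1)),
    b / (2 * p) * x3 + (s * (-x2) + t * x1 + u * x0)], ?_, ?_⟩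
  · simp only [Fin.sum_univ_four, Matrix.cons_val_zero, Matrix.cons_val_one, Matrix.cons_val]
    have e1 : (b / (2 * p) * x0 + (s * (-x1) + t * (-x2) + u * (-x3))) ^ 2 +
        (b / (2 * p) * x1 + (s * x0 + t * (-x3) + u * x2)) ^ 2 +
        (b / (2 * p) * x2 + (s * x3 + t * x0 + u * (-x1))) ^ 2 +
        (b / (2 * p) * x3 + (s * (-x2) + t * x1 + u * x0)) ^ 2 =
        ((b / (2 * p)) ^ 2 + (s ^ 2 + t ^ 2 + u ^ 2)) * (x0 ^ 2 + x1 ^ 2 + x2 ^ 2 + x3 ^ 2) := by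
      ring
    rw [e1, hX, hstu, hw']
    field_simp
    ring
  · simp only [Fin.sum_univ_four, Matrix.cons_val_zero, Matrix.cons_val_one, Matrix.cons_val]
    have e1 : x0 * (b / (2 * p) * x0 + (s * (-x1) + t * (-x2) + u * (-x3))) +
        x1 * (b / (2 * p) * x1 + (s * x0 + t * (-x3) + u * x2)) +
        x2 * (b / (2 * p) * x2 + (s * x3 + t * x0 + u * (-x1))) +
        x3 * (b / (2 * p) * x3 + (s * (-x2) + t * x1 + u * x0)) =
        (b / (2 * p)) * (x0 ^ 2 + x1 ^ 2 + x2 ^ 2 + x3 ^ 2) := by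
      ring
    rw [e1, hX]
    field_simp

end Pool.Agent.Lib_helper41.UL
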