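import Mathlib
import Pool.Agent.Lib_helper41.UL.A2

/-!
# Totally positive elements of real quadratic fields are sums of four squares
-/

set_option autoImplicit false

open NumberField

namespace Pool.Agent.Lib_helper41.UL

/-- a positive rational number is a rational square times a natural number not divisible by 4 -/
theorem rat_class (n : ℚ) (hn : 0 < n) :
    ∃ (c : ℚ) (N : ℕ), 0 < c ∧ N % 4 ≠ 0 ∧ n = c ^ 2 * N := by
  have hd : (n.den : ℚ) ≠ 0 := by exact_mod_cast n.den_ne_zero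
  have hd0 : (0 : ℚ) < n.den := by exact_mod_cast n.den_pos
  have hnum : ((n.num.toNat : ℕ) : ℚ) = n.num := by
    have h1 : 0 ≤ n.num := (Rat.num_pos.2 hn).le
    have h2 : ((n.num.toNat : ℕ) : ℤ) = n.num := Int.toNat_of_nonneg h1
    exact_mod_cast h2
  have hpe : (n.num : ℚ) = n * n.den := by
    rw [Rat.mul_den_eq_num]
  have hN0 : n.num.toNat * n.den ≠ 0 := by
    have h1 : 0 < n.num := Rat.num_pos.2 hn
    have h2 : 0 < n.num.toNat := by omega
    exact (Nat.mul_pos h2 n.den_pos).ne'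
  obtain ⟨k, N, h4, hN⟩ := Nat.exists_eq_pow_mul_and_not_dvd hN0 4 (by norm_num)
  have h4' : N % 4 ≠ 0 := fun h => h4 (Nat.dvd_of_mod_eq_zero h)
  refine ⟨(2 : ℚ) ^ k / n.den, N, by positivity, h4', ?_⟩
  have h1 : ((n.num.toNat * n.den : ℕ) : ℚ) = ((4 ^ k * N : ℕ) : ℚ) := by rw [hN]
  push_cast at h1
  rw [hnum, hpe] at h1
  have h2 : ((2 : ℚ) ^ k) ^ 2 = 4 ^ k := by
    rw [← pow_mul, mul_comm, pow_mul]; norm_num
  rw [div_pow, h2]
  field_simp
  linarith

variable (K : Type) [Field K] [NumberField K]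

theorem exists_irrational (h2 : Module.finrank ℚ K = 2) : ∃ t : K, ∀ q : ℚ, (q : K) ≠ t := by
  by_contra hcon
  push Not at hcon
  have h1 : Module.finrank ℚ K ≤ 1 := by
    apply finrank_le_one (1 : K)
    intro w
    obtain ⟨q, hq⟩ := hcon w
    exact ⟨q, by rw [← hq, Algebra.smul_def, mul_one]; rfl⟩
  omega

theorem span_pair (h2 : Module.finrank ℚ K = 2) (t : K) (ht : ∀ q : ℚ, (q : K) ≠ t) (x : K) :
    ∃ a b : ℚ, x = a + b * t := by
  have hli : LinearIndependent ℚ ![(1 : K), t] := by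
    rw [LinearIndependent.pair_iff]
    intro u v huv
    rw [Algebra.smul_def, Algebra.smul_def, mul_one] at huv
    have huv' : (u : K) + (v : K) * t = 0 := huv
    by_cases hv : v = 0
    · subst hv
      simp at huv'
      exact ⟨by exact_mod_cast huv', rfl⟩
    · exfalso
      apply ht (-u / v)
      have hv' : (v : K) ≠ 0 := by exact_mod_cast hv
      push_cast
      field_simp
      linear_combination -huv'
  have hsp := hli.span_eq_top_of_card_eq_finrank' (by simp [h2])
  have hx : x ∈ Submodule.span ℚ (Set.range ![(1 : K), t]) := by rw [hsp]; trivial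
  rw [Matrix.range_cons, Matrix.range_cons, Matrix.range_empty, Set.union_empty,
    Set.singleton_union, Submodule.mem_span_pair] at hx
  obtain ⟨a, b, h⟩ := hx
  refine ⟨a, b, ?_⟩
  rw [← h, Algebra.smul_def, Algebra.smul_def, mul_one]
  rfl

variable [IsTotallyReal K]

theorem two_embeddings (h2 : Module.finrank ℚ K = 2) : ∃ φ ψ : K →+* ℝ, φ ≠ ψ := by
  have hc : Fintype.card (K →+* ℂ) = 2 := by rw [NumberField.Embeddings.card K ℂ, h2]
  obtain ⟨f, g, hfg⟩ := Fintype.exists_pair_of_one_lt_card (α := K →+* ℂ) (by omega)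
  have hr : ∀ f : K →+* ℂ, ComplexEmbedding.IsReal f := fun f =>
    InfinitePlace.isReal_mk_iff.1 (IsTotallyReal.isReal (InfinitePlace.mk f))
  refine ⟨(hr f).embedding, (hr g).embedding, fun h => hfg ?_⟩
  ext x
  rw [← (hr f).coe_embedding_apply, ← (hr g).coe_embedding_apply, h]

/-- `K = ℚ(√D)` with a positive integer `D` not divisible by 4 -/
theorem exists_theta (h2 : Module.finrank ℚ K = 2) :
    ∃ (D : ℕ) (t : K), D % 4 ≠ 0 ∧ t ^ 2 = D ∧ ∀ q : ℚ, (q : K) ≠ t := by
  obtain ⟨t0, ht0⟩ := exists_irrational K h2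
  obtain ⟨v, u, huv⟩ := span_pair K h2 t0 ht0 (t0 ^ 2)
  set t1 : K := t0 - (u : K) / 2 with ht1
  have hirr1 : ∀ q : ℚ, (q : K) ≠ t1 := by
    intro q hq
    apply ht0 (q + u / 2)
    push_cast
    rw [hq, ht1]; ring
  set d : ℚ := v + u ^ 2 / 4 with hd
  have hsq : t1 ^ 2 = (d : K) := by
    rw [ht1, hd]
    push_cast
    linear_combination huv
  have hd0 : 0 < d := by
    obtain ⟨φ, -, -⟩ := two_embeddings K h2
    have h1 : t1 ≠ 0 := fun h => hirr1 0 (by rw [h]; simp)
    have h3 : φ t1 ≠ 0 := by rwa [Ne, map_eq_zero]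
    have h4 : (φ t1) ^ 2 = (d : ℝ) := by
      rw [← map_pow, hsq, map_ratCast]
    have h5 : 0 < (φ t1) ^ 2 := by positivity
    rw [h4] at h5
    exact_mod_cast h5
  obtain ⟨c, N, hc, hN, hdc⟩ := rat_class d hd0
  have hc' : (c : K) ≠ 0 := by exact_mod_cast hc.ne'
  refine ⟨N, t1 / c, hN, ?_, fun q hq => ?_⟩
  · rw [div_pow, hsq, hdc]
    push_cast
    field_simp
  · apply hirr1 (q * c)
    push_cast
    rw [hq]
    field_simp

/-- every totally positive element of a real quadratic field is the sum of four squares -/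
theorem four_squares_quadratic (h2 : Module.finrank ℚ K = 2) (al : K)
    (hal : ∀ φ : K →+* ℝ, 0 < φ al) : ∃ x : Fin 4 → K, ∑ i, x i ^ 2 = al := by
  obtain ⟨D, t, hD, ht, hirr⟩ := exists_theta K h2
  obtain ⟨a, b, hab⟩ := span_pair K h2 t hirr al
  obtain ⟨φ, ψ, hne⟩ := two_embeddings K h2
  have h1 : (φ t) ^ 2 = D := by rw [← map_pow, ht, map_natCast]
  have h3 : (ψ t) ^ 2 = D := by rw [← map_pow, ht, map_natCast]
  have hψ : ψ t = -φ t := by
    rcases sq_eq_sq_iff_eq_or_eq_neg.1 (h3.trans h1.symm) with h | h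
    · exfalso
      apply hne
      ext x
      obtain ⟨r, s, hx⟩ := span_pair K h2 t hirr x
      rw [hx]
      simp only [map_add, map_mul, map_ratCast, h]
    · exact h
  have e1 : 0 < (a : ℝ) + b * φ t := by
    have := hal φ
    rw [hab] at this
    simpa only [map_add, map_mul, map_ratCast] using this
  have e2 : 0 < (a : ℝ) - b * φ t := by
    have := hal ψ
    rw [hab] at this
    simp only [map_add, map_mul, map_ratCast, hψ] at this
    linarith
  have ha : 0 < a := by
    have : (0 : ℝ) < a := by linarith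
    exact_mod_cast this
  have hn : 0 < a ^ 2 - D * b ^ 2 := by
    have h4 : (0 : ℝ) < a ^ 2 - D * b ^ 2 := by
      have h5 := mul_pos e1 e2
      rw [← h1]
      linarith
    exact_mod_cast h4
  obtain ⟨X, Y, hX, hY⟩ := four_rational D hD a b ha hn
  refine ⟨fun i => (X i : K) + (Y i : K) * t, ?_⟩
  have hX' : (∑ i, (X i : K) ^ 2) + D * (∑ i, (Y i : K) ^ 2) = a := by
    rw [← hX]; push_cast; rfl
  have hY' : 2 * (∑ i, (X i : K) * (Y i : K)) = b := by
    rw [← hY]; push_cast; rfl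
  have h6 : ∑ i, ((X i : K) + (Y i : K) * t) ^ 2 =
      (∑ i, (X i : K) ^ 2) + t ^ 2 * (∑ i, (Y i : K) ^ 2) +
        2 * (∑ i, (X i : K) * (Y i : K)) * t := by
    simp only [Fin.sum_univ_four]
    ring
  rw [h6, ht, hX', hY', hab]

end Pool.Agent.Lib_helper41.UL
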